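import Pool.Agent.H380Z.Warm.Final

set_option autoImplicit false

namespace Pool.Agent.Results.MP_64e474_co.AWarmthUnbounded

open Pool.Agent.H380Z.Warm

/-- For every `w ≥ 3` there is a finite simple graph with an edge whose warmth (the largest `d`
for which it is `d`-warm) is `w` and whose neighbourhood complex has connectivity `0`.  For `w ≥ 4`
this violates `w(H) ≤ conn N(H) + 3`. -/
theorem result (w : ℕ) (hw : 3 ≤ w) :
    ∃ (V : Type) (_ : Fintype V) (H : SimpleGraph V), H.edgeSet.Nonempty ∧
      IsGreatest {d : ℕ | IsWarm H d} w ∧ conn (NbhdSpace H) = 0 :=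
  main w hw

end Pool.Agent.Results.MP_64e474_co.AWarmthUnbounded
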